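import Pool.Agent.K3h76.SB.StmA

/-!
# Brick FUN: real analyticity and the Taylor series of `Ph`
-/

set_option autoImplicit false

namespace Pool.Agent.K3h33.SB

open Finset Pool.Agent.K3h76.SB

lemma sum_pairs (f : ℕ → ℝ) (N : ℕ) :
    ∑ m ∈ range (2 * N), f m = ∑ t ∈ range N, (f (2 * t) + f (2 * t + 1)) := by
  induction N with
  | zero => simp
  | succ N ih =>
    rw [show 2 * (N + 1) = 2 * N + 1 + 1 by ring, sum_range_succ, sum_range_succ, ih,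
      sum_range_succ]
    ring

lemma re_pow (ρ σ : ℝ) (q : ℕ) : (((ρ : ℂ) + (σ : ℂ) * Complex.I) ^ (2 * q + 1)).re =
    ∑ t ∈ range (q + 1), ((2 * q + 1).choose (2 * t) : ℝ) * ρ ^ (2 * q + 1 - 2 * t) *
      ((-1) ^ t * σ ^ (2 * t)) := by
  rw [add_comm, add_pow, show 2 * q + 1 + 1 = 2 * (q + 1) by ring, Complex.re_sum, sum_pairs]
  refine sum_congr rfl fun t _ => ?_
  have e1 : (((σ : ℂ) * Complex.I) ^ (2 * t) * (ρ : ℂ) ^ (2 * q + 1 - 2 * t) *
      ((2 * q + 1).choose (2 * t) : ℂ)) = (((2 * q + 1).choose (2 * t) : ℝ) *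
        ρ ^ (2 * q + 1 - 2 * t) * ((-1) ^ t * σ ^ (2 * t)) : ℝ) := by
    push_cast
    rw [mul_pow, pow_mul Complex.I, Complex.I_sq]
    ring
  have e2 : (((σ : ℂ) * Complex.I) ^ (2 * t + 1) * (ρ : ℂ) ^ (2 * q + 1 - (2 * t + 1)) *
      ((2 * q + 1).choose (2 * t + 1) : ℂ)) = (((2 * q + 1).choose (2 * t + 1) : ℝ) *
        ρ ^ (2 * q + 1 - (2 * t + 1)) * ((-1) ^ t * σ ^ (2 * t + 1)) : ℝ) * Complex.I := by
    push_cast
    rw [mul_pow, pow_succ Complex.I, pow_mul Complex.I, Complex.I_sq]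
    ring
  rw [e1, e2, Complex.ofReal_re, Complex.re_ofReal_mul, Complex.I_re, mul_zero, add_zero]

lemma even_part_le {ρ σ : ℝ} (hρ : 0 ≤ ρ) (hσ : 0 ≤ σ) (q : ℕ) :
    ∑ t ∈ range (q + 1), ((2 * q + 1).choose (2 * t) : ℝ) * ρ ^ (2 * q + 1 - 2 * t) *
      σ ^ (2 * t) ≤ (ρ + σ) ^ (2 * q + 1) := by
  rw [add_comm ρ σ, add_pow, show 2 * q + 1 + 1 = 2 * (q + 1) by ring, sum_pairs]
  refine Finset.sum_le_sum fun t _ => ?_
  have h1 : 0 ≤ σ ^ (2 * t + 1) * ρ ^ (2 * q + 1 - (2 * t + 1)) *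
      ((2 * q + 1).choose (2 * t + 1) : ℝ) := by positivity
  have h2 : ((2 * q + 1).choose (2 * t) : ℝ) * ρ ^ (2 * q + 1 - 2 * t) * σ ^ (2 * t) =
      σ ^ (2 * t) * ρ ^ (2 * q + 1 - 2 * t) * ((2 * q + 1).choose (2 * t) : ℝ) := by ring
  linarith

/-- the terms of the double series -/
noncomputable def FF (Γ : ℕ → ℝ) (ρ σ : ℝ) (p : ℕ × ℕ) : ℝ :=
  Γ p.1 * ((2 * p.1 + 1).choose (2 * p.2) : ℝ) * ρ ^ (2 * p.1 + 1 - 2 * p.2) *
    ((-1) ^ p.2 * σ ^ (2 * p.2))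

lemma FF_zero (Γ : ℕ → ℝ) (ρ σ : ℝ) (q t : ℕ) (h : t ∉ range (q + 1)) : FF Γ ρ σ (q, t) = 0 := by
  rw [mem_range, not_lt] at h
  rw [FF]
  dsimp only
  rw [Nat.choose_eq_zero_of_lt (by omega)]
  simp

lemma FF_summable {Γ : ℕ → ℝ} {C : ℝ} (hΓ : ∀ q, |Γ q| ≤ C) {ρ σ : ℝ} (hρ : 0 < ρ)
    (h : ρ + |σ| < 1) : Summable (FF Γ ρ σ) := by
  have hC : 0 ≤ C := (abs_nonneg _).trans (hΓ 0)
  rw [← summable_abs_iff, summable_prod_of_nonneg (fun p => abs_nonneg _)]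
  have hfin : ∀ q, HasSum (fun t => |FF Γ ρ σ (q, t)|) (∑ t ∈ range (q + 1), |FF Γ ρ σ (q, t)|) :=
    fun q => hasSum_sum_of_ne_finset_zero fun t ht => by rw [FF_zero Γ ρ σ q t ht, abs_zero]
  refine ⟨fun q => (hfin q).summable, ?_⟩
  have hb : ∀ q, ∑' t, |FF Γ ρ σ (q, t)| ≤ C * ((ρ + |σ|) * ((ρ + |σ|) ^ 2) ^ q) := by
    intro q
    rw [(hfin q).tsum_eq]
    have h1 : ∀ t ∈ range (q + 1), |FF Γ ρ σ (q, t)| ≤ C * (((2 * q + 1).choose (2 * t) : ℝ) *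
        ρ ^ (2 * q + 1 - 2 * t) * |σ| ^ (2 * t)) := by
      intro t _
      rw [FF]
      dsimp only
      rw [abs_mul, abs_mul, abs_mul, abs_mul, abs_pow ρ, abs_pow (-1), abs_neg, abs_one, one_pow,
        one_mul, Nat.abs_cast, abs_pow σ, abs_of_pos hρ, mul_assoc, mul_assoc, mul_assoc]
      exact mul_le_mul_of_nonneg_right (hΓ q) (by positivity)
    refine (sum_le_sum h1).trans ?_
    rw [← mul_sum]
    refine mul_le_mul_of_nonneg_left ?_ hC
    refine (even_part_le hρ.le (abs_nonneg σ) q).trans (le_of_eq ?_)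
    rw [← pow_mul, pow_succ]
    ring
  have h0 : 0 ≤ ρ + |σ| := by positivity
  have h2 : Summable fun q : ℕ => C * ((ρ + |σ|) * ((ρ + |σ|) ^ 2) ^ q) := by
    refine Summable.mul_left _ (Summable.mul_left _ ?_)
    exact summable_geometric_of_lt_one (by positivity) (by nlinarith)
  exact Summable.of_nonneg_of_le (fun q => tsum_nonneg fun t => abs_nonneg _) hb h2

lemma taylor {Γ : ℕ → ℝ} {C : ℝ} (hΓ : ∀ q, |Γ q| ≤ C) {ρ v s : ℝ} (hρ : 0 < ρ) (hv : 0 < v)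
    (h : ρ + |√v * s| < 1) {P : ℂ}
    (hP : HasSum (fun q => (Γ q : ℂ) * ((ρ : ℂ) + ((√v * s : ℝ) : ℂ) * Complex.I) ^ (2 * q + 1)) P) :
    HasSum (fun t => (-v) ^ t * Et Γ ρ t * s ^ (2 * t)) P.re := by
  have hs := FF_summable hΓ (σ := √v * s) hρ h
  obtain ⟨S, hS⟩ := hs
  have h1 : HasSum (fun q => ((Γ q : ℂ) *
      ((ρ : ℂ) + ((√v * s : ℝ) : ℂ) * Complex.I) ^ (2 * q + 1)).re) S := by
    refine hS.prod_fiberwise fun q => ?_
    have h2 : ((Γ q : ℂ) * ((ρ : ℂ) + ((√v * s : ℝ) : ℂ) * Complex.I) ^ (2 * q + 1)).re =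
        ∑ t ∈ range (q + 1), FF Γ ρ (√v * s) (q, t) := by
      rw [Complex.re_ofReal_mul, re_pow, mul_sum]
      refine sum_congr rfl fun t _ => ?_
      rw [FF]
      ring
    rw [h2]
    exact hasSum_sum_of_ne_finset_zero fun t ht => FF_zero Γ ρ _ q t ht
  have h3 : P.re = S := (Complex.hasSum_re hP).unique h1
  rw [h3]
  have h4 : HasSum (fun p : ℕ × ℕ => FF Γ ρ (√v * s) p.swap) S :=
    (Equiv.prodComm ℕ ℕ).hasSum_iff.2 hS
  refine h4.prod_fiberwise fun t => ?_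
  have h5 : Summable fun q => FF Γ ρ (√v * s) (q, t) := by
    have := h4.summable.prod_factor t
    exact this
  have h6 : ∑' q, FF Γ ρ (√v * s) (q, t) = (-v) ^ t * Et Γ ρ t * s ^ (2 * t) := by
    simp only [FF]
    rw [tsum_mul_right, Et, mul_pow, pow_mul (√v), Real.sq_sqrt hv.le, neg_pow v t]
    ring
  rw [← h6]
  exact h5.hasSum

lemma sin_ne {ρ : ℝ} (h0 : 0 < ρ) (h1 : ρ < 1) (σ : ℝ) :
    Complex.sin (Real.pi * ((ρ : ℂ) + (σ : ℂ) * Complex.I)) ≠ 0 := by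
  rw [Complex.sin_ne_zero_iff]
  intro k hk
  have hpi : (Real.pi : ℂ) ≠ 0 := by exact_mod_cast Real.pi_ne_zero
  have h2 : (ρ : ℂ) + (σ : ℂ) * Complex.I = k := by
    rw [mul_comm (k : ℂ)] at hk
    exact mul_left_cancel₀ hpi hk
  have h3 := congrArg Complex.re h2
  simp at h3
  rw [h3] at h0 h1
  have h4 : (0 : ℤ) < k := by exact_mod_cast h0
  have h5 : k < 1 := by exact_mod_cast h1
  omega

lemma eta_analytic (a b : ℕ) {ρ : ℝ} (h0 : 0 < ρ) (h1 : ρ < 1) (σ : ℝ) :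
    AnalyticAt ℂ (eta a b) ((ρ : ℂ) + (σ : ℂ) * Complex.I) := by
  have e1 : ∀ c : ℂ, Differentiable ℂ fun z : ℂ => Complex.sin (Real.pi * z / c) := by
    intro c
    fun_prop
  have e2 : Differentiable ℂ fun z : ℂ => Complex.sin (Real.pi * z) := by fun_prop
  unfold eta
  exact (((e1 a).analyticAt _).mul ((e1 b).analyticAt _)).div (e2.analyticAt _) (sin_ne h0 h1 σ)

theorem t_FUN : S_KER → S_ETA → S_FUN := by
  intro hK hE a b ρ v ha hb h0 h1 hv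
  constructor
  · intro s _
    have e1 := (eta_analytic a b h0 h1 (√v * s)).restrictScalars (𝕜 := ℝ)
    have e2 : AnalyticAt ℝ (fun s : ℝ => (ρ : ℂ) + ((√v * s : ℝ) : ℂ) * Complex.I) s := by
      have e3 : AnalyticAt ℝ (fun s : ℝ => ((√v * s : ℝ) : ℂ)) s := by
        have e4 : AnalyticAt ℝ (fun s : ℝ => √v * s) s := analyticAt_const.mul analyticAt_id
        exact (Complex.ofRealCLM.analyticAt _).comp e4
      exact analyticAt_const.add (e3.mul analyticAt_const)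
    have e5 : AnalyticAt ℝ (fun s : ℝ => eta a b ((ρ : ℂ) + ((√v * s : ℝ) : ℂ) * Complex.I)) s :=
      AnalyticAt.comp (g := eta a b) e1 e2
    exact (Complex.reCLM.analyticAt _).comp e5
  · obtain ⟨C, θ, hθ0, hθ1, hC⟩ := hK a b ha hb
    have hΓ : ∀ q, |Gam a b q| ≤ |C| + |2 / Real.pi * sn a b| := by
      intro q
      have h2 := hC q
      have h3 : C * θ ^ q ≤ |C| := by
        have : θ ^ q ≤ 1 := pow_le_one₀ hθ0.le hθ1.le
        have h5 : 0 ≤ θ ^ q := by positivity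
        calc C * θ ^ q ≤ |C| * θ ^ q := by gcongr; exact le_abs_self C
          _ ≤ |C| * 1 := by gcongr
          _ = |C| := mul_one _
      have h4 : |Gam a b q| ≤ |Gam a b q - 2 / Real.pi * sn a b| + |2 / Real.pi * sn a b| := by
        have := abs_add_le (Gam a b q - 2 / Real.pi * sn a b) (2 / Real.pi * sn a b)
        simpa using this
      linarith
    have hcont : ContinuousAt (fun s : ℝ => ρ + |√v * s|) 0 := by fun_prop
    have hev : ∀ᶠ s in nhds (0 : ℝ), ρ + |√v * s| < 1 := by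
      refine hcont.eventually_lt continuousAt_const ?_
      simpa using h1
    filter_upwards [hev] with s hs
    have hz : ‖(ρ : ℂ) + ((√v * s : ℝ) : ℂ) * Complex.I‖ < 1 := by
      refine lt_of_le_of_lt (norm_add_le _ _) ?_
      rw [norm_mul, Complex.norm_I, mul_one, Complex.norm_real, Complex.norm_real,
        Real.norm_eq_abs, Real.norm_eq_abs, abs_of_pos h0]
      exact hs
    exact taylor hΓ h0 hv hs (hE a b ha hb _ hz)

end Pool.Agent.K3h33.SB
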